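import Pool.Agent.helper24.NR.Spec

/-!
# nr:HSI: double counting of the inner edges
-/

set_option autoImplicit false

namespace Pool.Agent.NR

open Finset

open Classical in
/-- an inner edge lies on exactly two faces, both without the two vertices -/
theorem HSI_two (V F : Type) [Fintype V] [Fintype F] (vs : F → Finset V) (es : F → Finset (Sym2 V)) (x y : V)
    (hB : Bad vs es x y) (e : Sym2 V) (he : e ∈ IN vs es x y) :
    ((HH vs x y).filter fun H => e ∈ es H).card = 2 := by
  unfold IN at he
  rw [Finset.mem_filter] at he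
  obtain ⟨he1, he2⟩ := he
  obtain ⟨f0, hf0⟩ : ∃ f, e ∈ es f := by
    unfold EE at he1
    rw [Finset.mem_biUnion] at he1
    obtain ⟨f, _, hf⟩ := he1
    exact ⟨f, hf⟩
  obtain ⟨f, g, hfg, hk⟩ := hB.cfg.two e ⟨f0, hf0⟩
  have h : ((HH vs x y).filter fun H => e ∈ es H) = {f, g} := by
    ext H
    rw [Finset.mem_filter, Finset.mem_insert, Finset.mem_singleton, hk]
    constructor
    · exact fun h => h.2
    · intro h
      refine ⟨?_, h⟩
      unfold HH
      rw [Finset.mem_filter]
      exact ⟨Finset.mem_univ _, he2 H ((hk H).2 h)⟩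
  rw [h, Finset.card_pair hfg]

theorem HSI : HSI_stmt := by
  classical
  intro V F _ _ vs es x y hB
  have key : ∑ H ∈ HH vs x y, ((IN vs es x y).filter fun e => e ∈ es H).card = 2 * (IN vs es x y).card := by
    simp only [Finset.card_filter]
    rw [Finset.sum_comm, mul_comm, ← smul_eq_mul, ← Finset.sum_const]
    refine Finset.sum_congr rfl fun e he => ?_
    rw [← Finset.card_filter, ← HSI_two V F vs es x y hB e he]
  rw [← key]
  refine Finset.sum_congr rfl fun H _ => ?_
  refine congrArg Finset.card ?_
  ext e
  simp only [Finset.mem_filter]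
  exact and_comm

end Pool.Agent.NR
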