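import Pool.Agent.helper56.NR.Spec

set_option autoImplicit false

open Complex Metric Set Filter Topology MeasureTheory Pool.Agent.helper98.ILF

open EX (ff)

noncomputable section

namespace NR

theorem QD_pt (x₂ w : ℂ) (r₂ s : ℝ) (hs : 0 ≤ s) (hsr : s ≤ r₂) (hw : ‖w - x₂‖ ≤ r₂) :
    ∃ p : ℂ, ‖p - x₂‖ ≤ r₂ - s ∧ ‖p - w‖ ≤ s := by
  by_cases h : ‖w - x₂‖ ≤ r₂ - s
  · exact ⟨w, h, by simpa using hs⟩
  · push Not at h
    have h0 : 0 ≤ r₂ - s := by linarith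
    have hd : 0 < ‖w - x₂‖ := lt_of_le_of_lt h0 h
    refine ⟨x₂ + ((r₂ - s) / ‖w - x₂‖ : ℝ) • (w - x₂), ?_, ?_⟩
    · have e1 : x₂ + ((r₂ - s) / ‖w - x₂‖ : ℝ) • (w - x₂) - x₂ = ((r₂ - s) / ‖w - x₂‖ : ℝ) • (w - x₂) := by ring
      rw [e1, norm_smul, Real.norm_eq_abs, abs_of_nonneg (div_nonneg h0 hd.le), div_mul_cancel₀ _ hd.ne']
    · have e1 : x₂ + ((r₂ - s) / ‖w - x₂‖ : ℝ) • (w - x₂) - w = ((r₂ - s) / ‖w - x₂‖ - 1 : ℝ) • (w - x₂) := by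
        rw [sub_smul, one_smul]; ring
      have e2 : ((r₂ - s) / ‖w - x₂‖ - 1 : ℝ) ≤ 0 := by
        have : (r₂ - s) / ‖w - x₂‖ ≤ 1 := (div_le_one hd).2 h.le
        linarith
      rw [e1, norm_smul, Real.norm_eq_abs, abs_of_nonpos e2]
      have e3 : -((r₂ - s) / ‖w - x₂‖ - 1) * ‖w - x₂‖ = ‖w - x₂‖ - (r₂ - s) := by
        field_simp
        ring
      rw [e3]
      linarith

theorem QD (hTWO : TWO_stmt) (hKO3 : V3.KO3_stmt) : QD_stmt := by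
  obtain ⟨C0, N0, hC0, hT⟩ := hTWO
  obtain ⟨κ, hκ, hK⟩ := hKO3 (1 / 8) (by norm_num) (by norm_num)
  refine ⟨κ + C0 * κ * 4 ^ N0, N0 + 1, ?_, by omega, ?_⟩
  · have : (0 : ℝ) ≤ C0 * κ * 4 ^ N0 := by positivity
    linarith
  intro g₁ g₂ x₁ x₂ w r₁ r₂ hr₁ hr₂ hd₁ hi₁ hd₂ hi₂ heq hw₁ hw₂
  set s : ℝ := min r₁ r₂ / 4 with hs
  have hm : 0 < min r₁ r₂ := lt_min hr₁ hr₂
  have hs0 : 0 < s := by positivity
  have hs1 : s ≤ r₁ / 4 := by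
    have := min_le_left r₁ r₂
    rw [hs]; linarith
  have hs2 : s ≤ r₂ / 4 := by
    have := min_le_right r₁ r₂
    rw [hs]; linarith
  obtain ⟨p, hp2, hpw⟩ := QD_pt x₂ w r₂ s hs0.le (by linarith) hw₂
  have hp1 : ‖p - x₁‖ ≤ 3 / 4 * r₁ := by
    have : p - x₁ = (p - w) + (w - x₁) := by ring
    rw [this]
    refine (norm_add_le _ _).trans ?_
    linarith
  have hpb1 : p ∈ ball x₁ ((1 - 1 / 8) * r₁) := by
    rw [mem_ball, dist_eq_norm]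
    linarith
  have hpb1' : p ∈ ball x₁ r₁ := by
    rw [mem_ball, dist_eq_norm]
    linarith
  have hpb2 : p ∈ ball x₂ r₂ := by
    rw [mem_ball, dist_eq_norm]
    linarith
  obtain ⟨-, hK1⟩ := hK g₁ x₁ r₁ hr₁ hd₁ hi₁
  obtain ⟨hk1, -, hk3, -⟩ := hK1 p hpb1
  have hopen : IsOpen (ball x₁ r₁ ∩ ball x₂ r₂) := isOpen_ball.inter isOpen_ball
  have hval : g₁ p = g₂ p := heq ⟨hpb1', hpb2⟩
  have hder : deriv g₁ p = deriv g₂ p := by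
    apply Filter.EventuallyEq.deriv_eq
    filter_upwards [hopen.mem_nhds ⟨hpb1', hpb2⟩] with z hz
    exact heq hz
  have hT1 := hT g₂ x₂ p r₂ s hs0 (by linarith) hd₂ hi₂ hp2
  set D : ℝ := ‖deriv g₁ x₁‖ with hD
  have hD0 : 0 ≤ D := norm_nonneg _
  set X : ℝ := max 1 (r₂ / r₁) with hX
  have hX1 : 1 ≤ X := le_max_left _ _
  have hX2 : r₂ ≤ r₁ * X := by
    have : r₂ / r₁ ≤ X := le_max_right _ _
    rw [div_le_iff₀ hr₁] at this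
    linarith
  have hX3 : r₂ / s ≤ 4 * X := by
    rw [div_le_iff₀ hs0, hs]
    rcases le_total r₁ r₂ with h | h
    · rw [min_eq_left h]
      nlinarith
    · rw [min_eq_right h]
      nlinarith
  have hg : ‖g₁ p - g₁ x₁‖ ≤ κ * (r₁ * D) := by
    refine hk3.trans ?_
    have : ‖p - x₁‖ * D ≤ r₁ * D := mul_le_mul_of_nonneg_right (by linarith) hD0
    calc κ * ‖p - x₁‖ * D = κ * (‖p - x₁‖ * D) := by ring
      _ ≤ κ * (r₁ * D) := mul_le_mul_of_nonneg_left this (by linarith)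
  have hg2 : ‖g₂ x₂ - g₂ p‖ ≤ C0 * (r₁ * X) * (κ * D) * (4 * X) ^ N0 := by
    refine hT1.trans ?_
    rw [← hder]
    have h1 : (r₂ / s) ^ N0 ≤ (4 * X) ^ N0 := pow_le_pow_left₀ (by positivity) hX3 N0
    have h2 : C0 * r₂ * ‖deriv g₁ p‖ ≤ C0 * (r₁ * X) * (κ * D) := by
      refine mul_le_mul ?_ hk1 (norm_nonneg _) (by positivity)
      exact mul_le_mul_of_nonneg_left hX2 (by linarith)
    exact mul_le_mul h2 h1 (by positivity) (by positivity)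
  have hfin : ‖g₂ x₂ - g₁ x₁‖ ≤ κ * (r₁ * D) + C0 * (r₁ * X) * (κ * D) * (4 * X) ^ N0 := by
    have : g₂ x₂ - g₁ x₁ = (g₂ x₂ - g₂ p) + (g₁ p - g₁ x₁) := by rw [hval]; ring
    rw [this]
    refine (norm_add_le _ _).trans ?_
    linarith
  refine hfin.trans ?_
  have hXN : 1 ≤ X ^ (N0 + 1) := one_le_pow₀ hX1
  have e1 : C0 * (r₁ * X) * (κ * D) * (4 * X) ^ N0 = C0 * κ * 4 ^ N0 * (r₁ * D) * X ^ (N0 + 1) := by
    rw [mul_pow, pow_succ]; ring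
  rw [e1]
  have e2 : κ * (r₁ * D) ≤ κ * (r₁ * D) * X ^ (N0 + 1) := le_mul_of_one_le_right (by positivity) hXN
  calc κ * (r₁ * D) + C0 * κ * 4 ^ N0 * (r₁ * D) * X ^ (N0 + 1)
      ≤ κ * (r₁ * D) * X ^ (N0 + 1) + C0 * κ * 4 ^ N0 * (r₁ * D) * X ^ (N0 + 1) := by linarith
    _ = (κ + C0 * κ * 4 ^ N0) * (r₁ * D) * X ^ (N0 + 1) := by ring

end NR
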